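import Pool.Agent.EX18.QGen

/-!
Closure theorem for the matroids whose toric ideals are generated by quadrics (Q1, the weak conjecture of White).

The class `QGen` is the smallest class of finite matroids which contains every matroid whose toric ideal over some
field is generated by its homogeneous elements of degree two, every matroid on at most 13 elements, every matroid of
rank at most six, every matroid without a minor isomorphic to `U_{1,2} ⊕ U_{1,2} ⊕ U_{2,2}`, every matroid all of
whose circuits have at least `rank - 2` elements, and which is closed under isomorphism, duality, minors, direct sums,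
2-sums, principal extensions and truncations, matroid union, induction by bipartite graphs, splits of the base
polytope and relaxation of circuit-hyperplanes. Its members need not be representable.

(The definition of `QGen` is in `Pool.Agent.EX18.GenDefs`; `IsTwoSum`, `IsPrincExt`, `IsUnion`, `IsSplit`,
`IsCircuitHyperplane`, `IsRelaxation` are in `Pool.Agent.EX18.QDefs`, `IsPrincTrunc` in `Pool.Agent.EX18.TrDefs`,
`IsInduced` in `Pool.Agent.Un25.IndDefs`, `IsSep`, `IsComp` in `Pool.Agent.EX18.CompDefs`, `HasSixMinor` in
`Pool.Agent.EX18.SixDefs`; `Bases`, `baseHom`, `toricIdeal` in `Pool.Agent.H94.ToricDefs`. The proof is in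
`Pool/Agent/EX18`, `R6`, `FT56`, `SP65`, `SA65`, `Un25`, `TwoSum25`, `EX54`, `EX59`, `EX65`, `EX84`, `EX91`, `WT59`.)
-/

set_option autoImplicit false

namespace Pool.Agent.Results.MP_e6151a_ag.ClosureTheorem

open Pool.Agent.H94 Pool.Agent.EX18

universe u v w

/-- If `M` is a matroid of positive rank in the class `QGen` then, for every field `K`, the toric ideal of `M` is
generated by its homogeneous elements of degree two. -/
theorem result {α : Type u} (M : Matroid α) [M.RankPos] (h : QGen.{u, v} M) (K : Type w) [Field K] :
    toricIdeal K M = Ideal.span {f | f ∈ toricIdeal K M ∧ f.IsHomogeneous 2} :=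
  QGen.main M h K

end Pool.Agent.Results.MP_e6151a_ag.ClosureTheorem
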