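import Pool.Agent.CF98.Gen

/-!
Generators of the toric ideal of a matroid: quadrics and cubic binomials with critical sunflowers.

For every finite matroid `M` of positive rank and every field `K`, the toric ideal of `M` is generated by its homogeneous
elements of degree `2` and those cubic binomials `∏ X (B k) - ∏ X (D k)` (`k = 0, 1, 2`) whose multidegree `w` (`w e` is the number of `k`
with `e ∈ B k`) has a critical sunflower for `M` and for which `3 - w` has a critical sunflower for the dual `M✶`.  In particular it is
generated in degree at most `3`.

A critical sunflower of `w` in `M` (`CF98.CritSun M w`) consists of a flat `T` with `w(T) = 3 r(T)` and three flats `F i ⊇ T` with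
`w(F i) = 3 r(F i) - 1` such that the elements of positive weight in `F i ∩ F j` (`i ≠ j`) are in `T`.
(The definitions `Bases`, `baseHom`, `toricIdeal` are in `Pool.Agent.H94.ToricDefs`, `cont` and `CritSun` are in
`Pool.Agent.CF98.LiftDefs`; the proof is in `Pool/Agent/DT3`, `Pool/Agent/WL`, `Pool/Agent/WD` and `Pool/Agent/CF98`.)
-/

set_option autoImplicit false

namespace Pool.Agent.Results.MP_e6151a_ag.DegreeThree

open Finset MvPolynomial Pool.Agent.H94 Pool.Agent.CF98

/-- The toric ideal of a matroid of positive rank is generated by its quadrics and the cubic binomials whose multidegree has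
critical sunflowers for the matroid and for its dual. -/
theorem result {α : Type*} [DecidableEq α] (K : Type*) [Field K] (M : Matroid α) [M.Finite]
    [M.RankPos] :
    toricIdeal K M = Ideal.span
      ({f | f ∈ toricIdeal K M ∧ f.IsHomogeneous 2} ∪
        {f | f ∈ toricIdeal K M ∧ ∃ B D : Fin 3 → Bases M,
          f = (∏ k, (X (B k) : MvPolynomial (Bases M) K)) - ∏ k, X (D k) ∧
          CritSun M (cont fun k => (B k).1) ∧
          CritSun M✶ (fun e => 3 - cont (fun k => (B k).1) e)}) :=
  gens K M

end Pool.Agent.Results.MP_e6151a_ag.DegreeThree
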