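import Pool.Agent.AX2.Main5

/-!
The toric ideal of a representable matroid is generated by quadrics.

Let `M` be a finite matroid of positive rank such that `M` or its dual `M✶` is representable over
some field `k` (of any characteristic, finite or infinite). Then, for every field `K`, the toric
ideal of `M` is generated by its homogeneous elements of degree `2` (the weak conjecture of White
for these matroids).
(The definitions `Bases`, `baseHom`, `toricIdeal` are in `Pool.Agent.H94.ToricDefs`; blueprints
of the proof are in `Pool/Agent/W3/BLUEPRINT.md`, `Pool/Agent/Q2/BLUEPRINT.md`,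
`Pool/Agent/AX/BLUEPRINT.md` and `Pool/Agent/QC/BLUEPRINT.md`.)
-/

set_option autoImplicit false

namespace Pool.Agent.Results.MP_e6151a_ag.Quadrics

open Pool.Agent.H94

/-- If `M` or `M✶` is represented over a field `k` by the vectors `v e`, then the toric ideal of
`M` is generated by its homogeneous elements of degree two. -/
theorem result {α : Type*} (K : Type*) [Field K] (M : Matroid α) [M.Finite] [M.RankPos]
    {k W : Type*} [Field k] [AddCommGroup W] [Module k W] (v : α → W)
    (h : (∀ I ⊆ M.E, M.Indep I ↔ LinearIndepOn k v I) ∨
      (∀ I ⊆ M.E, M✶.Indep I ↔ LinearIndepOn k v I)) :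
    toricIdeal K M = Ideal.span {f | f ∈ toricIdeal K M ∧ f.IsHomogeneous 2} :=
  Pool.Agent.AX2.main5 K M v h

end Pool.Agent.Results.MP_e6151a_ag.Quadrics
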