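import Pool.Agent.WNeg.Rep
import Pool.Agent.WNeg.Root
import Pool.Agent.AX2.Main5

/-!
The strong form of White's conjecture is false.

There is a matroid `M` of rank `9` on `18` elements, representable over the field with `4` elements, such that for every field `K`
the toric ideal of `M` is generated by quadrics but not by the binomials of symmetric exchanges. The difference is seen
by a quadric: there are two pairs of complementary bases which are not linked by symmetric exchanges.
(The definitions `Bases`, `baseHom`, `toricIdeal`, `IsSymmExch`, `exchBinomials` are in `Pool.Agent.H94.ToricDefs`; the matroid, found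
by helper92, and the proof are in `Pool/Agent/WNeg` (helper51, helper94), the generation by quadrics is in `Pool/Agent/AX2`.)
-/

set_option autoImplicit false

namespace Pool.Agent.Results.MP_e6151a_ag.StrongFormFails

open MvPolynomial Pool.Agent.H94

/-- A matroid of rank `9` on `18` elements, representable over the field with `4` elements, whose toric ideal is generated by
quadrics but not by the binomials of symmetric exchanges. -/
theorem result.{u} : ∃ M : Matroid (Fin 18), M.Finite ∧ M.RankPos ∧ M.eRank = 9 ∧
    (∃ v : Fin 18 → Fin 9 → GaloisField 2 2,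
      ∀ I : Set (Fin 18), M.Indep I ↔ LinearIndepOn (GaloisField 2 2) v I) ∧
    ∃ B₁ B₂ B₃ B₄ : Bases M, B₂.1 = B₁.1ᶜ ∧ B₄.1 = B₃.1ᶜ ∧ ∀ (K : Type u) [Field K],
      toricIdeal K M = Ideal.span {f | f ∈ toricIdeal K M ∧ f.IsHomogeneous 2} ∧
      (X B₁ * X B₂ - X B₃ * X B₄ : MvPolynomial (Bases M) K) ∈ toricIdeal K M ∧
      (X B₁ * X B₂ - X B₃ * X B₄ : MvPolynomial (Bases M) K) ∉ Ideal.span (exchBinomials K M) := by
  obtain ⟨w, hw⟩ := WNeg.exists_w
  have := WNeg.N_rankPos
  refine ⟨WNeg.N, WNeg.N_finite, WNeg.N_rankPos, WNeg.N_rank, ⟨WNeg.vec w, WNeg.N_rep hw⟩,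
    WNeg.B0, WNeg.B0', WNeg.B1, WNeg.B1', WNeg.compl0, WNeg.compl1, fun K _ => ⟨?_,
      WNeg.strong_binom_mem K, WNeg.strong_binom_not_mem K⟩⟩
  exact AX2.main5 K WNeg.N (WNeg.vec w) (Or.inl fun I _ => WNeg.N_rep hw I)

end Pool.Agent.Results.MP_e6151a_ag.StrongFormFails
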